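import Pool.Agent.Helper38.PiE.Data
import Pool.Agent.Helper78.Trs2.ShR

/-!
# Project `trs2`: the instance `246` when `πe` is rational
-/

set_option autoImplicit false

namespace Pool.Agent.Helper78.Trs2

open Complex _root_.Trs _root_.Trs.H40 Pool.Agent.Helper38.PiE

/-- If `πe` is rational then `π^π` and `π^e` are not both algebraic. -/
theorem st_246R (hM : S_Main) (hJT : S_JorT) (hJD : S_JorD) (hA1 : S_Alg1) (hDel : S_Del)
    (hTor : S_Tor) (hAP : S_AddPair) (hTd : S_Tdim) (r : ℚ) (hr : Real.pi * Real.exp 1 = r)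
    (h4 : IsAlgebraic ℚ (nine 4)) (h6 : IsAlgebraic ℚ (nine 6)) : False := by
  have h24 := pipi (h := h4)
  have h26 := pie' (h := h6)
  have hpos : (0 : ℝ) < r := by rw [← hr]; positivity
  have hr0 : (0 : ℚ) < r := by exact_mod_cast hpos
  have hnum : r.num ≠ 0 := (Rat.num_pos.2 hr0).ne'
  have hden : (r.den : ℤ) ≠ 0 := by exact_mod_cast r.den_nz
  have hpc : ((r.num : ℤ) : ℂ) ≠ 0 := by exact_mod_cast hnum
  have hqc : ((r.den : ℕ) : ℂ) ≠ 0 := by exact_mod_cast r.den_nz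
  -- `q π e = p`
  have key : ((r.den : ℕ) : ℂ) * ((Real.pi : ℂ) * ((Real.exp 1 : ℝ) : ℂ)) = ((r.num : ℤ) : ℂ) := by
    have e1 : (r : ℝ) * (r.den : ℝ) = (r.num : ℝ) := by exact_mod_cast Rat.mul_den_eq_num r
    have e2 : (r.den : ℝ) * (Real.pi * Real.exp 1) = (r.num : ℝ) := by rw [hr, mul_comm, e1]
    exact_mod_cast e2
  have halg2 : IsAlgebraic ℚ (nine 2) := by
    have e : nine 2 = ((r : ℚ) : ℝ) := by rw [← hr]; simp [nine]
    rw [e]
    exact isAlgebraic_algebraMap (R := ℚ) (A := ℝ) r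
  have h2' := exp_pie (h := halg2)
  have halgQ : ∀ x : ℤ, IsAlgebraic ℚ (x : ℂ) := fun x => by
    have := isAlgebraic_algebraMap (R := ℚ) (A := ℂ) (x : ℚ)
    simpa using this
  have t2alg : IsAlgebraic ℚ (exp (((r.den : ℕ) : ℂ) * ((Real.log Real.pi : ℂ) *
      ((Real.exp 1 : ℝ) : ℂ)))) := by
    rw [Complex.exp_nat_mul]
    exact h26.pow _
  have hnn : ((r.num : ℤ) : ℂ) = ((r.num.toNat : ℕ) : ℂ) := by
    have : ((r.num.toNat : ℕ) : ℤ) = r.num := Int.toNat_of_nonneg (Rat.num_pos.2 hr0).le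
    exact_mod_cast this.symm
  have s2alg : IsAlgebraic ℚ (exp (((r.num : ℤ) : ℂ) * ((Real.log Real.pi : ℂ) + 1))) := by
    rw [hnn, Complex.exp_nat_mul]
    exact h2'.pow _
  refine hM 4 3 ![false, false, true, true]
    ![![I, 0, 0, I * (Real.pi : ℂ)],
      ![0, -((r.num : ℤ) : ℂ), ((r.den : ℕ) : ℂ) * ((Real.log Real.pi : ℂ) *
        ((Real.exp 1 : ℝ) : ℂ)), ((r.num : ℤ) : ℂ) * ((Real.log Real.pi : ℂ) + 1)],
      ![-1, 0, (Real.log Real.pi : ℂ) + 1, (Real.log Real.pi : ℂ) * Real.pi]]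
    ![1, 0, -1, 0] ![0, 1, 0, -1]
    ![-(Real.pi : ℂ), 1, -(Real.pi : ℂ), 1] ?_ ?_ ?_ ?_ ?_ ?_ ?_ 60 59 32 26 58
    (by norm_num) (by norm_num) (by norm_num) ?_
    (shR hJT hJD hA1 hDel hTor hAP hTd (-1) (-1) I
      (-((r.num : ℤ) : ℂ)) (I * (Real.pi : ℂ))
      (((r.den : ℕ) : ℂ) * ((Real.log Real.pi : ℂ) * ((Real.exp 1 : ℝ) : ℂ)))
      (((r.num : ℤ) : ℂ) * ((Real.log Real.pi : ℂ) + 1)) (-1)
      ((Real.log Real.pi : ℂ) + 1) ((Real.log Real.pi : ℂ) * Real.pi) (by simp) (by simp)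
      ?_ (neg_ne_zero.2 hpc) ?_ ?_)
  · intro h
    have := congrFun h 1
    simp at this
  · intro k
    fin_cases k
    · simp [Fin.sum_univ_four]; ring
    · have e : -((r.num : ℤ) : ℂ) + (-((Real.pi : ℂ) * (((r.den : ℕ) : ℂ) * ((Real.log Real.pi : ℂ) *
          ((Real.exp 1 : ℝ) : ℂ)))) + ((r.num : ℤ) : ℂ) * ((Real.log Real.pi : ℂ) + 1)) = 0 := by
        linear_combination (-(Real.log Real.pi : ℂ)) * key
      simpa [Fin.sum_univ_four, add_assoc] using e
    · simp [Fin.sum_univ_four]; ring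
  · simp [Fin.sum_univ_four]
  · simp [Fin.sum_univ_four]
  · intro k i
    have hi := alg_I
    have hpi := exp_I_pi_alg
    fin_cases k <;> fin_cases i
    · simpa using hi
    · simpa using isAlgebraic_zero
    · simpa using isAlgebraic_one
    · simpa using hpi
    · simpa using isAlgebraic_zero
    · simpa using (halgQ r.num).neg
    · simpa using t2alg
    · simpa using s2alg
    · simpa using alg_neg_one
    · simpa using isAlgebraic_zero
    · simpa using h2'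
    · simpa using h24
  · intro i
    fin_cases i <;> simp [isAlgebraic_zero, isAlgebraic_one, alg_neg_one]
  · intro i
    fin_cases i <;> simp [isAlgebraic_zero, isAlgebraic_one, alg_neg_one]
  · simp [ex, Fin.sum_univ_four]
  · intro g k hgk
    have h1 := congrArg Complex.im hgk
    have h3 := congrArg Complex.re hgk
    simp at h1 h3
    exact ⟨h1, h3⟩
  · have e1 : (((r.den : ℕ) : ℂ) * ((Real.log Real.pi : ℂ) * ((Real.exp 1 : ℝ) : ℂ))).re =
        (r.den : ℝ) * (Real.log Real.pi * Real.exp 1) := by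
      have e2 : ((r.den : ℕ) : ℂ) * ((Real.log Real.pi : ℂ) * ((Real.exp 1 : ℝ) : ℂ)) =
          (((r.den : ℝ) * (Real.log Real.pi * Real.exp 1) : ℝ) : ℂ) := by push_cast; ring
      rw [e2, Complex.ofReal_re]
    rw [e1]
    have hd : (r.den : ℝ) ≠ 0 := by exact_mod_cast r.den_nz
    exact mul_ne_zero hd (mul_ne_zero logpi_pos.ne' (Real.exp_pos 1).ne')
  · have e1 : ((Real.log Real.pi : ℂ) * Real.pi).re = Real.log Real.pi * Real.pi := by
      rw [← Complex.ofReal_mul, Complex.ofReal_re]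
    rw [e1]
    exact mul_ne_zero logpi_pos.ne' Real.pi_ne_zero

end Pool.Agent.Helper78.Trs2
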