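import Pool.Agent.Helper78.Trs2.ShI
import Pool.Agent.Helper78.Trs2.I246R

/-!
# Project `trs2`: the instance `246`
-/

set_option autoImplicit false

namespace Pool.Agent.Helper78.Trs2

open Complex _root_.Trs _root_.Trs.H40 Pool.Agent.Helper38.PiE

/-- If `πe` is an irrational algebraic number then `π^π` and `π^e` are not both algebraic. -/
theorem st_246I (hM : _root_.Trs2.S_Main) (hirr : Irrational (Real.pi * Real.exp 1))
    (h2 : IsAlgebraic ℚ (nine 2)) (h4 : IsAlgebraic ℚ (nine 4)) (h6 : IsAlgebraic ℚ (nine 6)) :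
    False := by
  have h22 := pie (h := h2)
  have h24 := pipi (h := h4)
  have h26 := pie' (h := h6)
  have h2' := exp_pie (h := h2)
  have hal : ∀ a b : ℤ, (a : ℂ) * ((Real.pi : ℂ) * ((Real.exp 1 : ℝ) : ℂ)) + b = 0 →
      a = 0 ∧ b = 0 := by
    intro a b hab
    have h1 : (a : ℝ) * (Real.pi * Real.exp 1) + b = 0 := by exact_mod_cast hab
    have ha : a = 0 := by
      by_contra ha
      have ha' : (a : ℝ) ≠ 0 := by exact_mod_cast ha
      apply hirr
      refine ⟨-(b : ℚ) / a, ?_⟩
      push_cast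
      field_simp
      linarith
    subst ha
    refine ⟨rfl, ?_⟩
    simpa using h1
  refine hM 5 4 3 ![false, false, true, true, true]
    ![![I, 0, 0, I * (Real.pi : ℂ), 0],
      ![I * ((Real.pi : ℂ) * ((Real.exp 1 : ℝ) : ℂ)), 0, 0, 0, I * (Real.pi : ℂ)],
      ![-1, 0, (Real.log Real.pi : ℂ) + 1, (Real.log Real.pi : ℂ) * Real.pi, 0],
      ![0, -((Real.pi : ℂ) * ((Real.exp 1 : ℝ) : ℂ)), (Real.log Real.pi : ℂ) *
        ((Real.exp 1 : ℝ) : ℂ), 0, (Real.log Real.pi : ℂ) + 1]]
    ![![1, 0, -1, 0, 0], ![0, 1, 0, -1, 0],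
      ![0, 0, 0, (Real.pi : ℂ) * ((Real.exp 1 : ℝ) : ℂ), -1]]
    ![-(Real.pi : ℂ), 1, -(Real.pi : ℂ), 1, (Real.pi : ℂ) * ((Real.exp 1 : ℝ) : ℂ)]
    ?_ ?_ ?_ ?_ ?_ 60 59 41 17 58
    (by norm_num) (by norm_num) (by norm_num) ?_
    (shI ((Real.pi : ℂ) * ((Real.exp 1 : ℝ) : ℂ)) I
      (I * ((Real.pi : ℂ) * ((Real.exp 1 : ℝ) : ℂ))) (-1)
      (-((Real.pi : ℂ) * ((Real.exp 1 : ℝ) : ℂ))) ((Real.log Real.pi : ℂ) + 1)
      ((Real.log Real.pi : ℂ) * ((Real.exp 1 : ℝ) : ℂ)) (I * (Real.pi : ℂ))
      ((Real.log Real.pi : ℂ) * Real.pi) (I * (Real.pi : ℂ)) ((Real.log Real.pi : ℂ) + 1)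
      hal ?_ (neg_ne_zero.2 (mul_ne_zero pi_ne e_ne)) ?_)
  · intro h
    have := congrFun h 1
    simp at this
  · intro k
    fin_cases k
    · simp [Fin.sum_univ_five]; ring
    · simp [Fin.sum_univ_five]; ring
    · simp [Fin.sum_univ_five]; ring
    · simp [Fin.sum_univ_five]; ring
  · intro k
    fin_cases k
    · simp [Fin.sum_univ_five]
    · simp [Fin.sum_univ_five]
    · simp [Fin.sum_univ_five]
  · intro k i
    have hi := alg_I
    have hpi := exp_I_pi_alg
    fin_cases k <;> fin_cases i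
    · simpa using hi
    · simpa using isAlgebraic_zero
    · simpa using isAlgebraic_one
    · simpa using hpi
    · simpa using isAlgebraic_one
    · simpa using hi.mul h22
    · simpa using isAlgebraic_zero
    · simpa using isAlgebraic_one
    · simpa using isAlgebraic_one
    · simpa using hpi
    · simpa using alg_neg_one
    · simpa using isAlgebraic_zero
    · simpa using h2'
    · simpa using h24
    · simpa using isAlgebraic_one
    · simpa using isAlgebraic_zero
    · simpa using h22.neg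
    · simpa using h26
    · simpa using isAlgebraic_one
    · simpa using h2'
  · intro k i
    fin_cases k <;> fin_cases i
    · simpa using isAlgebraic_one
    · simpa using isAlgebraic_zero
    · simpa using alg_neg_one
    · simpa using isAlgebraic_zero
    · simpa using isAlgebraic_zero
    · simpa using isAlgebraic_zero
    · simpa using isAlgebraic_one
    · simpa using isAlgebraic_zero
    · simpa using alg_neg_one
    · simpa using isAlgebraic_zero
    · simpa using isAlgebraic_zero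
    · simpa using isAlgebraic_zero
    · simpa using isAlgebraic_zero
    · simpa using h22
    · simpa using alg_neg_one
  · simp [ex, Fin.sum_univ_five]
  · intro a b c habc
    obtain ⟨P, hP⟩ : ∃ P : ℝ, P = Real.pi * Real.exp 1 := ⟨_, rfl⟩
    have hPc : (Real.pi : ℂ) * ((Real.exp 1 : ℝ) : ℂ) = (P : ℂ) := by
      rw [hP, Complex.ofReal_mul]
    rw [hPc] at habc
    have h1 := congrArg Complex.im habc
    have h3 := congrArg Complex.re habc
    simp at h1 h3
    have h5 : (b : ℂ) * ((Real.pi : ℂ) * ((Real.exp 1 : ℝ) : ℂ)) + a = 0 := by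
      rw [hPc]
      have h6 : (b : ℝ) * P + a = 0 := by linarith
      exact_mod_cast h6
    obtain ⟨hb, ha⟩ := hal b a h5
    exact ⟨ha, hb, h3⟩
  · have e1 : ((Real.log Real.pi : ℂ) * Real.pi).re = Real.log Real.pi * Real.pi := by
      rw [← Complex.ofReal_mul, Complex.ofReal_re]
    rw [e1]
    exact mul_ne_zero logpi_pos.ne' Real.pi_ne_zero

/-- **246**: one of `πe, π^π, π^e` is transcendental. -/
theorem st_246 (hM2 : _root_.Trs2.S_Main) (hM : S_Main) (hJT : S_JorT) (hJD : S_JorD)
    (hA1 : S_Alg1) (hDel : S_Del) (hTor : S_Tor) (hAP : S_AddPair) (hTd : S_Tdim) :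
    _root_.Trs2.S_246 := by
  by_contra hcon
  have h := not_some hcon
  have h2 := h 2 (by simp)
  have h4 := h 4 (by simp)
  have h6 := h 6 (by simp)
  by_cases hirr : Irrational (Real.pi * Real.exp 1)
  · exact st_246I hM2 hirr h2 h4 h6
  · unfold Irrational at hirr
    rw [not_not] at hirr
    obtain ⟨r, hr⟩ := hirr
    exact st_246R hM hJT hJD hA1 hDel hTor hAP hTd r hr.symm h4 h6

end Pool.Agent.Helper78.Trs2
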