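import Mathlib

/-!
# Linear algebra for the linear shape condition (project `trs2`)
-/

set_option autoImplicit false

namespace Pool.Agent.Helper78.Trs2

/-- The columns of a matrix with independent rows span. -/
theorem span_cols {e r : ℕ} (R : Fin e → Fin r → ℂ) (hR : LinearIndependent ℂ R) :
    Submodule.span ℂ (Set.range fun k : Fin r => fun j : Fin e => R j k) = ⊤ := by
  by_contra h
  obtain ⟨f, hf, hle⟩ := Submodule.exists_le_ker_of_lt_top _ (lt_top_iff_ne_top.2 h)
  apply hf
  have h1 : ∀ k, f (fun j => R j k) = 0 := fun k =>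
    LinearMap.mem_ker.1 (hle (Submodule.subset_span ⟨k, rfl⟩))
  have h2 : ∑ j, f (Pi.single j 1) • R j = 0 := by
    funext k
    have h3 := h1 k
    have h4 : (fun j => R j k) = ∑ j, R j k • (Pi.single j 1 : Fin e → ℂ) := by
      funext i
      rw [Finset.sum_apply, Finset.sum_eq_single i]
      · simp
      · intro j _ hj
        simp [hj.symm]
      · intro h; exact absurd (Finset.mem_univ i) h
    rw [h4, map_sum] at h3
    simp only [map_smul, smul_eq_mul] at h3
    rw [Finset.sum_apply]
    simp only [Pi.smul_apply, smul_eq_mul, Pi.zero_apply]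
    rw [← h3]
    exact Finset.sum_congr rfl fun j _ => mul_comm _ _
  have h5 := Fintype.linearIndependent_iff.1 hR _ h2
  apply LinearMap.pi_ext'
  intro i
  ext
  simpa using h5 i

/-- Independent rows: some square block of columns is injective. -/
theorem exists_cols {e r : ℕ} (R : Fin e → Fin r → ℂ) (hR : LinearIndependent ℂ R) :
    ∃ Cx : Finset (Fin r), Cx.card = e ∧ ∀ x : Fin r → ℂ, (∀ k, k ∉ Cx → x k = 0) →
      (∀ j, ∑ k, R j k * x k = 0) → x = 0 := by
  classical
  obtain ⟨κ, a, ha, hsp, hli⟩ := exists_linearIndependent' ℂ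
    (fun k : Fin r => fun j : Fin e => R j k)
  rw [span_cols R hR] at hsp
  have : Fintype κ := Fintype.ofInjective a ha
  refine ⟨Finset.univ.image a, ?_, ?_⟩
  · rw [Finset.card_image_of_injective _ ha, Finset.card_univ]
    have b := Module.Basis.mk hli hsp.ge
    have h1 := Module.finrank_eq_card_basis b
    rw [Module.finrank_fin_fun] at h1
    exact h1.symm
  · intro x hx hrow
    have h1 : ∑ i : κ, x (a i) • ((fun k : Fin r => fun j : Fin e => R j k) ∘ a) i = 0 := by
      funext j
      rw [Finset.sum_apply]
      have h2 := hrow j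
      rw [← Finset.sum_subset (Finset.subset_univ (Finset.univ.image a)) (fun k _ hk => by
        rw [hx k hk, mul_zero]), Finset.sum_image (fun x _ y _ h => ha h)] at h2
      simp only [Function.comp, Pi.smul_apply, smul_eq_mul, Pi.zero_apply]
      rw [← h2]
      exact Finset.sum_congr rfl fun i _ => mul_comm _ _
    have h3 := Fintype.linearIndependent_iff.1 hli _ h1
    funext k
    by_cases hk : k ∈ Finset.univ.image a
    · obtain ⟨i, _, rfl⟩ := Finset.mem_image.1 hk
      exact h3 i
    · exact hx k hk

/-- Full rank: the rows have no common zero. -/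
theorem full_rank {e : ℕ} (R : Fin e → Fin e → ℂ) (hR : LinearIndependent ℂ R)
    (x : Fin e → ℂ) (hx : ∀ j, ∑ k, R j k * x k = 0) : x = 0 := by
  obtain ⟨Cx, hC, h⟩ := exists_cols R hR
  have : Cx = Finset.univ := Finset.eq_univ_of_card _ (by rw [hC, Fintype.card_fin])
  subst this
  exact h x (fun k hk => absurd (Finset.mem_univ k) hk) hx

/-- Integer vectors that are independent over `ℤ` are independent over `ℂ`. -/
theorem indep_complex {c n : ℕ} (mu : Fin c → Fin n → ℤ) (h : LinearIndependent ℤ mu) :
    LinearIndependent ℂ (fun j i => (mu j i : ℂ)) := by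
  have hQ : LinearIndependent ℚ (fun j i => (mu j i : ℚ)) := by
    rw [← LinearIndependent.iff_fractionRing ℤ ℚ]
    let f : (Fin n → ℤ) →ₗ[ℤ] (Fin n → ℚ) :=
      { toFun := fun v i => (v i : ℚ)
        map_add' := fun v w => by funext i; simp
        map_smul' := fun a v => by funext i; simp }
    have hf : LinearMap.ker f = ⊥ := by
      rw [LinearMap.ker_eq_bot]
      intro v w hvw
      funext i
      have := congrFun hvw i
      have h2 : (v i : ℚ) = (w i : ℚ) := this
      exact_mod_cast h2
    exact h.map' f hf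
  rw [Fintype.linearIndependent_iff]
  intro g hg j0
  rw [← Module.forall_dual_apply_eq_zero_iff ℚ (g j0)]
  intro φ
  refine Fintype.linearIndependent_iff.1 hQ (fun j => φ (g j)) ?_ j0
  funext i
  have h1 := congrFun hg i
  rw [Finset.sum_apply] at h1 ⊢
  have h2 := congrArg φ h1
  rw [Pi.zero_apply, map_zero, map_sum] at h2
  rw [Pi.zero_apply, ← h2]
  refine Finset.sum_congr rfl fun j _ => ?_
  have h3 : (g j • (fun i => (mu j i : ℂ))) i = (mu j i : ℚ) • g j := by
    rw [Pi.smul_apply, smul_eq_mul, Rat.smul_def, mul_comm]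
    push_cast
    rfl
  rw [Pi.smul_apply, smul_eq_mul]
  change φ (g j) * (mu j i : ℚ) = φ ((g j • (fun i => (mu j i : ℂ))) i)
  rw [h3, map_smul, smul_eq_mul, mul_comm]

end Pool.Agent.Helper78.Trs2
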