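import Pool.Agent.Helper17.Trs2.Defs
import Pool.Agent.Helper78.Trs2.Lin

/-!
# A linear shape condition on `G_a^2 × G_m^3` (project `trs2`, instance `246`)
-/

set_option autoImplicit false

namespace Pool.Agent.Helper78.Trs2

open _root_.Trs

/-- the torus pattern -/
def T5 : Fin 5 → Bool := ![false, false, true, true, true]

theorem re_zero_of_exp {z : ℂ} (h : Complex.exp z = 1) : z.re = 0 := by
  have h1 := congrArg norm h
  rw [Complex.norm_exp, norm_one] at h1
  exact Real.exp_eq_one_iff _ |>.1 h1

theorem shI (al a0 a1 a2 b3 t2 t3 s10 s12 s21 s23 : ℂ)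
    (hal : ∀ a b : ℤ, (a : ℂ) * al + b = 0 → a = 0 ∧ b = 0)
    (hA : ∀ a b c : ℤ, (a : ℂ) * a0 + b * a1 + c * a2 = 0 → a = 0 ∧ b = 0 ∧ c = 0)
    (hb3 : b3 ≠ 0) (hs12 : s12.re ≠ 0) :
    _root_.Trs2.ShapeL (m := 4) (r := 3) ![false, false, true, true, true]
      ![![a0, 0, 0, s10, 0], ![a1, 0, 0, 0, s21], ![a2, 0, t2, s12, 0], ![0, b3, t3, 0, s23]]
      ![![1, 0, -1, 0, 0], ![0, 1, 0, -1, 0], ![0, 0, 0, al, -1]] 59 41 17 58 := by
  intro ca cm lam mu hl hm hlt hmt hpos
  -- the shapes of the forms
  have l2 : ∀ j, lam j 2 = 0 := fun j => hlt j 2 rfl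
  have l3 : ∀ j, lam j 3 = 0 := fun j => hlt j 3 rfl
  have l4 : ∀ j, lam j 4 = 0 := fun j => hlt j 4 rfl
  have m0 : ∀ j, mu j 0 = 0 := fun j => hmt j 0 rfl
  have m1 : ∀ j, mu j 1 = 0 := fun j => hmt j 1 rfl
  have hmC := indep_complex mu hm
  -- sufficient simplified form
  suffices h : ∃ (Ax : Finset (Fin 4)) (Cx : Finset (Fin 3)),
      (∀ g : Fin 4 → ℤ, (∀ k, k ∉ Ax → g k = 0) →
        (∀ j, lam j 0 * ((g 0 : ℂ) * a0 + g 1 * a1 + g 2 * a2) + lam j 1 * (g 3 * b3) = 0) →
        (∀ j, Complex.exp ((mu j 2 : ℂ) * (g 2 * t2 + g 3 * t3) +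
          mu j 3 * (g 0 * s10 + g 2 * s12) + mu j 4 * (g 1 * s21 + g 3 * s23)) = 1) → g = 0) ∧
      (∀ x : Fin 3 → ℂ, (∀ k, k ∉ Cx → x k = 0) →
        (∀ j, lam j 0 * x 0 + lam j 1 * x 1 = 0) →
        (∀ j, -(mu j 2 : ℂ) * x 0 + -(mu j 3 : ℂ) * x 1 + (al * mu j 3 - mu j 4) * x 2 = 0) →
          x = 0) ∧
      59 * ca + 41 * cm < 17 * Ax.card + 58 * Cx.card by
    obtain ⟨Ax, Cx, h1, h2, h3⟩ := h
    refine ⟨Ax, Cx, ?_, ?_, h3⟩
    · intro g hg hgl hgm
      refine h1 g hg (fun j => ?_) (fun j => ?_)
      · have := hgl j
        simp only [Fin.sum_univ_five, gp, Finset.sum_apply, Fin.sum_univ_four, Pi.smul_apply,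
          smul_eq_mul, l2, l3, l4] at this
        simp at this
        linear_combination this
      · have := hgm j
        simp only [Fin.sum_univ_five, gp, Finset.sum_apply, Fin.sum_univ_four, Pi.smul_apply,
          smul_eq_mul, m0, m1] at this
        simp at this
        rw [← this]
    · intro x hx hxl hxm
      refine h2 x hx (fun j => ?_) (fun j => ?_)
      · have := hxl j
        simp only [Fin.sum_univ_five, Fin.sum_univ_three, l2, l3, l4] at this
        simp at this
        linear_combination this
      · have := hxm j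
        simp only [Fin.sum_univ_five, Fin.sum_univ_three, m0, m1] at this
        simp at this
        linear_combination this
  -- independence of the rows
  have hmR : LinearIndependent ℂ (fun j : Fin cm => ![-(mu j 2 : ℂ), -(mu j 3 : ℂ),
      al * mu j 3 - mu j 4]) := by
    rw [Fintype.linearIndependent_iff]
    intro c hc
    refine Fintype.linearIndependent_iff.1 hmC c ?_
    have e0 := congrFun hc 0
    have e1 := congrFun hc 1
    have e2 := congrFun hc 2
    rw [Finset.sum_apply] at e0 e1 e2
    simp only [Pi.smul_apply, smul_eq_mul, Matrix.cons_val_zero, Matrix.cons_val_one,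
      Matrix.cons_val, Pi.zero_apply] at e0 e1 e2
    have f2 : ∑ j, c j * (mu j 2 : ℂ) = 0 := by
      have : ∑ j, c j * (mu j 2 : ℂ) = - ∑ j, c j * -(mu j 2 : ℂ) := by
        rw [← Finset.sum_neg_distrib]
        exact Finset.sum_congr rfl fun j _ => by ring
      rw [this, e0, neg_zero]
    have f3 : ∑ j, c j * (mu j 3 : ℂ) = 0 := by
      have : ∑ j, c j * (mu j 3 : ℂ) = - ∑ j, c j * -(mu j 3 : ℂ) := by
        rw [← Finset.sum_neg_distrib]
        exact Finset.sum_congr rfl fun j _ => by ring
      rw [this, e1, neg_zero]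
    have f4 : ∑ j, c j * (mu j 4 : ℂ) = 0 := by
      have : ∑ j, c j * (mu j 4 : ℂ) = al * ∑ j, c j * (mu j 3 : ℂ) -
          ∑ j, c j * (al * mu j 3 - mu j 4) := by
        rw [Finset.mul_sum, ← Finset.sum_sub_distrib]
        exact Finset.sum_congr rfl fun j _ => by ring
      rw [this, e2, f3, mul_zero, sub_zero]
    funext i
    rw [Finset.sum_apply]
    simp only [Pi.smul_apply, smul_eq_mul, Pi.zero_apply]
    fin_cases i
    · simp [m0]
    · simp [m1]
    · exact f2
    · exact f3
    · exact f4
  have hlR : LinearIndependent ℂ (fun j : Fin ca => ![lam j 0, lam j 1]) := by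
    rw [Fintype.linearIndependent_iff]
    intro c hc
    refine Fintype.linearIndependent_iff.1 hl c ?_
    have e0 := congrFun hc 0
    have e1 := congrFun hc 1
    rw [Finset.sum_apply] at e0 e1
    simp only [Pi.smul_apply, smul_eq_mul, Matrix.cons_val_zero, Matrix.cons_val_one,
      Pi.zero_apply] at e0 e1
    funext i
    rw [Finset.sum_apply]
    simp only [Pi.smul_apply, smul_eq_mul, Pi.zero_apply]
    fin_cases i
    · exact e0
    · exact e1
    · simp [l2]
    · simp [l3]
    · simp [l4]
  have hcm : cm ≤ 3 := by
    have := hmR.fintype_card_le_finrank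
    rwa [Fintype.card_fin, Module.finrank_fin_fun] at this
  have hca : ca ≤ 2 := by
    have := hlR.fintype_card_le_finrank
    rwa [Fintype.card_fin, Module.finrank_fin_fun] at this
  have hmx : ∀ x : Fin 3 → ℂ,
      (∀ j, -(mu j 2 : ℂ) * x 0 + -(mu j 3 : ℂ) * x 1 + (al * mu j 3 - mu j 4) * x 2 = 0) →
      ∀ j, ∑ k, ![-(mu j 2 : ℂ), -(mu j 3 : ℂ), al * mu j 3 - mu j 4] k * x k = 0 := by
    intro x hx j
    rw [Fin.sum_univ_three]
    exact hx j
  have g4 : ∀ g : Fin 4 → ℤ, g 0 = 0 → g 1 = 0 → g 2 = 0 → g 3 = 0 → g = 0 := by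
    intro g h0 h1 h2 h3
    funext k
    fin_cases k
    · exact h0
    · exact h1
    · exact h2
    · exact h3
  have x3 : ∀ x : Fin 3 → ℂ, x 0 = 0 → x 1 = 0 → x 2 = 0 → x = 0 := by
    intro x h0 h1 h2
    funext k
    fin_cases k
    · exact h0
    · exact h1
    · exact h2
  have cz : ∀ (g : ℤ) (c : ℂ), c ≠ 0 → (g : ℂ) * c = 0 → g = 0 := by
    intro g c hc hg
    rcases mul_eq_zero.mp hg with h | h
    · exact_mod_cast h
    · exact absurd h hc
  -- one axis which is free modulo a nonzero additive form
  have ax1 : ∀ (ll : Fin 5 → ℂ), (ll 0 ≠ 0 ∨ ll 1 ≠ 0) → ∃ k0 : Fin 4, ∀ g : Fin 4 → ℤ,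
      (∀ k, k ≠ k0 → g k = 0) →
      ll 0 * ((g 0 : ℂ) * a0 + g 1 * a1 + g 2 * a2) + ll 1 * (g 3 * b3) = 0 → g = 0 := by
    intro ll hll
    by_cases h0 : ll 0 = 0
    · have h1 : ll 1 ≠ 0 := by
        rcases hll with h | h
        · exact absurd h0 h
        · exact h
      refine ⟨3, fun g hg h => ?_⟩
      rw [h0, zero_mul, zero_add] at h
      have h2 := (mul_eq_zero.1 h).resolve_left h1
      exact g4 g (hg 0 (by decide)) (hg 1 (by decide)) (hg 2 (by decide)) (cz _ _ hb3 h2)
    · refine ⟨0, fun g hg h => ?_⟩
      have e1 := hg 1 (by decide)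
      have e2 := hg 2 (by decide)
      have e3 := hg 3 (by decide)
      rw [e3, Int.cast_zero, zero_mul, mul_zero, add_zero] at h
      have h2 := (mul_eq_zero.1 h).resolve_left h0
      exact g4 g (hA _ _ _ h2).1 e1 e2 e3
  obtain rfl | rfl | rfl : ca = 0 ∨ ca = 1 ∨ ca = 2 := by omega
  · -- no additive form
    obtain ⟨Cx, hC, hC2⟩ := exists_cols _ hmR
    refine ⟨∅, Cx, ?_, fun x hx _ hxm => hC2 x hx (hmx x hxm), ?_⟩
    · intro g hg _ _
      exact g4 g (hg 0 (by simp)) (hg 1 (by simp)) (hg 2 (by simp)) (hg 3 (by simp))
    · rw [hC, Finset.card_empty]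
      omega
  · -- one additive form
    have hll : lam 0 0 ≠ 0 ∨ lam 0 1 ≠ 0 := by
      by_contra hcon
      rw [not_or, not_not, not_not] at hcon
      have := hlR.ne_zero 0
      apply this
      funext i
      fin_cases i
      · exact hcon.1
      · exact hcon.2
    obtain rfl | rfl | rfl | rfl : cm = 0 ∨ cm = 1 ∨ cm = 2 ∨ cm = 3 := by omega
    · -- cm = 0
      obtain ⟨k0, hk0⟩ := ax1 (lam 0) hll
      have hex : ∃ c0 : Fin 3, ∀ x : Fin 3 → ℂ, (∀ k, k ≠ c0 → x k = 0) →
          lam 0 0 * x 0 + lam 0 1 * x 1 = 0 → x = 0 := by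
        rcases hll with h | h
        · refine ⟨0, fun x hx h1 => ?_⟩
          have e1 := hx 1 (by decide)
          have e2 := hx 2 (by decide)
          rw [e1, mul_zero, add_zero] at h1
          exact x3 x ((mul_eq_zero.1 h1).resolve_left h) e1 e2
        · refine ⟨1, fun x hx h1 => ?_⟩
          have e0 := hx 0 (by decide)
          have e2 := hx 2 (by decide)
          rw [e0, mul_zero, zero_add] at h1
          exact x3 x e0 ((mul_eq_zero.1 h1).resolve_left h) e2
      obtain ⟨c0, hc0⟩ := hex
      refine ⟨{k0}, {c0}, ?_, ?_, ?_⟩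
      · intro g hg hgl _
        exact hk0 g (fun k hk => hg k (by simpa using hk)) (hgl 0)
      · intro x hx hxl _
        exact hc0 x (fun k hk => hx k (by simpa using hk)) (hxl 0)
      · simp
    · -- cm = 1
      by_cases hind : LinearIndependent ℂ ![![lam 0 0, lam 0 1, 0],
          ![-(mu 0 2 : ℂ), -(mu 0 3 : ℂ), al * mu 0 3 - mu 0 4]]
      · obtain ⟨Cx, hC, hC2⟩ := exists_cols _ hind
        refine ⟨∅, Cx, ?_, ?_, ?_⟩
        · intro g hg _ _
          exact g4 g (hg 0 (by simp)) (hg 1 (by simp)) (hg 2 (by simp)) (hg 3 (by simp))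
        · intro x hx hxl hxm
          refine hC2 x hx fun j => ?_
          rw [Fin.sum_univ_three]
          fin_cases j
          · simpa using hxl 0
          · simpa using hxm 0
        · rw [hC]
          simp
      · -- dependent rows
        rw [LinearIndependent.pair_iff] at hind
        push Not at hind
        obtain ⟨s, t, hst, hne⟩ := hind
        have e0 := congrFun hst 0
        have e1 := congrFun hst 1
        have e2 := congrFun hst 2
        simp only [Pi.add_apply, Pi.smul_apply, smul_eq_mul, Matrix.cons_val_zero,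
          Matrix.cons_val_one, Matrix.cons_val, Pi.zero_apply, mul_zero, zero_add] at e0 e1 e2
        have ht : t ≠ 0 := by
          intro ht
          have hs : s ≠ 0 := fun hs => hne hs ht
          rw [ht, zero_mul, add_zero] at e0 e1
          rcases hll with h | h
          · exact h ((mul_eq_zero.1 e0).resolve_left hs)
          · exact h ((mul_eq_zero.1 e1).resolve_left hs)
        have e3 := (mul_eq_zero.1 e2).resolve_left ht
        obtain ⟨m3, m4⟩ := hal (mu 0 3) (-(mu 0 4)) (by push_cast; linear_combination e3)
        have m4' : mu 0 4 = 0 := by simpa using m4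
        have m2 : mu 0 2 ≠ 0 := by
          intro m2
          apply hm.ne_zero 0
          funext i
          fin_cases i
          · exact m0 0
          · exact m1 0
          · exact m2
          · exact m3
          · exact m4'
        have m2c : (mu 0 2 : ℂ) ≠ 0 := by exact_mod_cast m2
        have hs : s ≠ 0 := by
          intro hs
          rw [hs, zero_mul, zero_add] at e0
          rcases mul_eq_zero.1 e0 with h | h
          · exact ht h
          · exact m2c (neg_eq_zero.1 h)
        have hl1 : lam 0 1 = 0 := by
          rw [m3, Int.cast_zero, neg_zero, mul_zero, add_zero] at e1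
          exact (mul_eq_zero.1 e1).resolve_left hs
        have hl0 : lam 0 0 ≠ 0 := by
          rcases hll with h | h
          · exact h
          · exact absurd hl1 h
        refine ⟨{0, 1, 2}, {0}, ?_, ?_, ?_⟩
        · intro g hg hgl _
          have h1 := hgl 0
          rw [hl1, zero_mul, add_zero] at h1
          obtain ⟨q0, q1, q2⟩ := hA _ _ _ ((mul_eq_zero.1 h1).resolve_left hl0)
          exact g4 g q0 q1 q2 (hg 3 (by decide))
        · intro x hx hxl _
          have h1 := hxl 0
          rw [hl1, zero_mul, add_zero] at h1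
          exact x3 x ((mul_eq_zero.1 h1).resolve_left hl0) (hx 1 (by decide)) (hx 2 (by decide))
        · decide
    · -- cm = 2
      by_cases hl0 : lam 0 0 = 0
      · have hl1 : lam 0 1 ≠ 0 := by
          rcases hll with h | h
          · exact absurd hl0 h
          · exact h
        by_cases hz : mu 0 2 = 0 ∧ mu 1 2 = 0
        · -- `M` is in the plane of the last two coordinates
          obtain ⟨Cx, hC, hC2⟩ := exists_cols _ hmR
          have h3 : mu 0 3 ≠ 0 ∨ mu 1 3 ≠ 0 := by
            by_contra hcon
            rw [not_or, not_not, not_not] at hcon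
            have h5 := Fintype.linearIndependent_iff.1 hm ![mu 1 4, -(mu 0 4)] (by
              funext i
              rw [Finset.sum_apply, Fin.sum_univ_two]
              simp only [Pi.smul_apply, smul_eq_mul, Matrix.cons_val_zero, Matrix.cons_val_one,
                Pi.zero_apply]
              fin_cases i
              · simp [m0]
              · simp [m1]
              · simp [hz.1, hz.2]
              · simp [hcon.1, hcon.2]
              · simp; ring)
            have h6 : mu 0 4 = 0 := by simpa using h5 1
            apply hm.ne_zero 0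
            funext i
            fin_cases i
            · exact m0 0
            · exact m1 0
            · exact hz.1
            · exact hcon.1
            · exact h6
          refine ⟨{2, 3}, Cx, ?_, fun x hx _ hxm => hC2 x hx (hmx x hxm), ?_⟩
          · intro g hg hgl hgm
            have q0 := hg 0 (by decide)
            have q1 := hg 1 (by decide)
            have h1 := hgl 0
            rw [hl0, zero_mul, zero_add] at h1
            have q3 := cz _ _ hb3 ((mul_eq_zero.1 h1).resolve_left hl1)
            obtain ⟨j, hj2, hj3⟩ : ∃ j : Fin 2, mu j 2 = 0 ∧ mu j 3 ≠ 0 := by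
              rcases h3 with h | h
              · exact ⟨0, hz.1, h⟩
              · exact ⟨1, hz.2, h⟩
            have h4 := re_zero_of_exp (hgm j)
            rw [q0, q1, q3, hj2] at h4
            have h5 : (mu j 3 : ℝ) * ((g 2 : ℝ) * s12.re) = 0 := by
              simpa using h4
            have hj3' : (mu j 3 : ℝ) ≠ 0 := by exact_mod_cast hj3
            have h6 := (mul_eq_zero.1 ((mul_eq_zero.1 h5).resolve_left hj3')).resolve_right hs12
            exact g4 g q0 q1 (by exact_mod_cast h6) q3
          · rw [hC]
            simp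
        · -- full rank
          refine ⟨∅, Finset.univ, ?_, ?_, by simp⟩
          · intro g hg _ _
            exact g4 g (hg 0 (by simp)) (hg 1 (by simp)) (hg 2 (by simp)) (hg 3 (by simp))
          · intro x _ hxl hxm
            have h1 := hxl 0
            rw [hl0, zero_mul, zero_add] at h1
            have x1 := (mul_eq_zero.1 h1).resolve_left hl1
            have h2 := hxm 0
            have h3 := hxm 1
            rw [x1, mul_zero, add_zero] at h2 h3
            -- the determinant
            have hdet : (mu 1 2 : ℂ) * (al * mu 0 3 - mu 0 4) - mu 0 2 * (al * mu 1 3 - mu 1 4)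
                ≠ 0 := by
              intro hd
              obtain ⟨d1, d2⟩ := hal (mu 1 2 * mu 0 3 - mu 0 2 * mu 1 3)
                (mu 0 2 * mu 1 4 - mu 1 2 * mu 0 4) (by push_cast; linear_combination hd)
              have h5 := Fintype.linearIndependent_iff.1 hm ![mu 1 2, -(mu 0 2)] (by
                funext i
                rw [Finset.sum_apply, Fin.sum_univ_two]
                simp only [Pi.smul_apply, smul_eq_mul, Matrix.cons_val_zero, Matrix.cons_val_one,
                  Pi.zero_apply]
                fin_cases i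
                · simp [m0]
                · simp [m1]
                · simp; ring
                · simp; linarith
                · simp; linarith)
              apply hz
              refine ⟨?_, ?_⟩
              · simpa using h5 1
              · simpa using h5 0
            have x2 : x 2 = 0 := by
              have h4 : ((mu 1 2 : ℂ) * (al * mu 0 3 - mu 0 4) -
                  mu 0 2 * (al * mu 1 3 - mu 1 4)) * x 2 = 0 := by
                linear_combination (mu 1 2 : ℂ) * h2 - (mu 0 2 : ℂ) * h3
              exact (mul_eq_zero.1 h4).resolve_left hdet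
            have x0 : x 0 = 0 := by
              rw [x2, mul_zero, add_zero] at h2 h3
              by_contra hx0
              apply hz
              refine ⟨?_, ?_⟩
              · have := (mul_eq_zero.1 h2).resolve_right hx0
                exact_mod_cast neg_eq_zero.1 this
              · have := (mul_eq_zero.1 h3).resolve_right hx0
                exact_mod_cast neg_eq_zero.1 this
            exact x3 x x0 x1 x2
      · obtain ⟨Cx, hC, hC2⟩ := exists_cols _ hmR
        refine ⟨{0, 1}, Cx, ?_, fun x hx _ hxm => hC2 x hx (hmx x hxm), ?_⟩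
        · intro g hg hgl _
          have q2 := hg 2 (by decide)
          have q3 := hg 3 (by decide)
          have h1 := hgl 0
          rw [q3, Int.cast_zero, zero_mul, mul_zero, add_zero] at h1
          obtain ⟨q0, q1, _⟩ := hA _ _ _ ((mul_eq_zero.1 h1).resolve_left hl0)
          exact g4 g q0 q1 q2 q3
        · rw [hC]
          simp
    · -- cm = 3
      obtain ⟨k0, hk0⟩ := ax1 (lam 0) hll
      refine ⟨{k0}, Finset.univ, ?_, fun x _ _ hxm => full_rank _ hmR x (hmx x hxm), ?_⟩
      · intro g hg hgl _
        exact hk0 g (fun k hk => hg k (by simpa using hk)) (hgl 0)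
      · simp
  · -- two additive forms
    have hfull : ∀ y z : ℂ, (∀ j, lam j 0 * y + lam j 1 * z = 0) → y = 0 ∧ z = 0 := by
      intro y z hyz
      have := full_rank _ hlR ![y, z] (fun j => by
        rw [Fin.sum_univ_two]
        simpa using hyz j)
      exact ⟨by simpa using congrFun this 0, by simpa using congrFun this 1⟩
    have hfree : ∀ g : Fin 4 → ℤ,
        (∀ j, lam j 0 * ((g 0 : ℂ) * a0 + g 1 * a1 + g 2 * a2) + lam j 1 * (g 3 * b3) = 0) →
        g = 0 := by
      intro g hg
      obtain ⟨h1, h2⟩ := hfull _ _ hg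
      obtain ⟨q0, q1, q2⟩ := hA _ _ _ h1
      exact g4 g q0 q1 q2 (cz _ _ hb3 h2)
    by_cases hcm2 : cm ≤ 1
    · refine ⟨Finset.univ, {0, 1}, fun g _ hgl _ => hfree g hgl, ?_, ?_⟩
      · intro x hx hxl _
        obtain ⟨h1, h2⟩ := hfull _ _ hxl
        exact x3 x h1 h2 (hx 2 (by decide))
      · rw [Finset.card_univ, Fintype.card_fin]
        have : ({0, 1} : Finset (Fin 3)).card = 2 := by decide
        rw [this]
        omega
    · refine ⟨Finset.univ, Finset.univ, fun g _ hgl _ => hfree g hgl, ?_, ?_⟩
      · intro x _ hxl hxm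
        obtain ⟨h1, h2⟩ := hfull _ _ hxl
        refine x3 x h1 h2 ?_
        by_contra hx2
        have hall : ∀ j, mu j 3 = 0 ∧ mu j 4 = 0 := by
          intro j
          have h3 := hxm j
          rw [h1, h2, mul_zero, mul_zero, add_zero, zero_add] at h3
          have h4 := (mul_eq_zero.1 h3).resolve_right hx2
          obtain ⟨d1, d2⟩ := hal (mu j 3) (-(mu j 4)) (by push_cast; linear_combination h4)
          exact ⟨d1, by simpa using d2⟩
        have hlin : LinearIndependent ℂ (fun j : Fin cm => ![(mu j 2 : ℂ)]) := by
          rw [Fintype.linearIndependent_iff]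
          intro c hc
          refine Fintype.linearIndependent_iff.1 hmC c ?_
          have e0 := congrFun hc 0
          rw [Finset.sum_apply] at e0
          simp only [Pi.smul_apply, smul_eq_mul, Matrix.cons_val_zero, Pi.zero_apply] at e0
          funext i
          rw [Finset.sum_apply]
          simp only [Pi.smul_apply, smul_eq_mul, Pi.zero_apply]
          fin_cases i
          · simp [m0]
          · simp [m1]
          · exact e0
          · simp [(hall _).1]
          · simp [(hall _).2]
        have := hlin.fintype_card_le_finrank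
        rw [Fintype.card_fin, Module.finrank_fin_fun] at this
        omega
      · rw [Finset.card_univ, Finset.card_univ, Fintype.card_fin, Fintype.card_fin]
        omega

end Pool.Agent.Helper78.Trs2
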